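import Pool.Agent.Lib.MN.Stm

/-!
MP_00e23e_nt, directory Lib/MN (THEOREM MI, version 7, architect helper34), chapter B: as in Lib/ML (SpecB), with any divisor
r = t q * u q in place of the greedy initial divisor.
RULES. Module X: file Pool/Agent/Lib/MN/X.lean, first line `import Pool.Agent.Lib.MN.SpecB`, then
`namespace Pool.Agent.Lib.MN` and `open Finset Pool.Agent.Lib.EH3 Pool.Agent.Lib.TB Pool.Agent.Results.MP_00e23e_nt Pool.Agent.Lib.MI`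
(MN.Nst, MN.BlStmt, ... win over those of MI; write MI.X, MK.X, ML.X for the others: ML.Pr, ML.BboStmt, ...), private lemmas
with names starting with X_, final theorem `theorem tX (h1 : AStmt) ... : XStmt`; the statements listed under Uses are
hypotheses, in this order. MODEL file: copy it and change it. Never use congr!. Below 60 s.
-/

namespace Pool.Agent.Lib.MN

open Finset Pool.Agent.Lib.EH3 Pool.Agent.Lib.TB Pool.Agent.Results.MP_00e23e_nt Pool.Agent.Lib.MI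

open Classical in
/-- Module Brm (theorem tBrm; the remainders, the class modulo t depends on t and u). Uses: MI.BphStmt. MODEL: Lib/MK/Brm.lean (its private lemmas can be copied: Brm_harm, Brm_mul, Brm_g, Brm_g_sum, Brm_phi, Brm_count, Brm_pairs).
Proof. For a triple w = (t, u, s) with t ∣ m n - a (t, u) the term is ≤ (1/φ(u)) Brm_g T z (m n) s (as in the MODEL), so the sum over G is ≤ ∑_(t,u ≤ D) (1/φ(u)) ∑_(m,n : t ∣ m n - a (t,u)) ∑_(s ≤ D) Brm_g T z (m n) s ≤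
∑_(t,u ≤ D) (1/φ(u)) T (4 M N/t + 1) (3 T^3/z) (Brm_pairs, Brm_g_sum) ≤ T^2 (4 M N T^2 + D T) 3 T^3/z ≤ 15 T^8 M N/z (Brm_harm, Brm_phi, D ≤ M N, T ≥ 1). -/
def BrmStmt : Prop := ∀ (X T z : ℝ) (a : ℕ × ℕ → ℤ) (D M N : ℕ) (G : Finset (ℕ × ℕ × ℕ)), Tau X T → 1 ≤ z →
  1 ≤ M → 1 ≤ N → (D : ℝ) ≤ X → 4 * (M : ℝ) * N ≤ X → D ≤ M * N →
  (∀ w ∈ G, 1 ≤ w.1 ∧ 1 ≤ w.2.1 ∧ 1 ≤ w.2.2 ∧ w.1 ≤ D ∧ w.2.1 ≤ D ∧ w.2.2 ≤ D ∧
    ∀ p : ℕ, p.Prime → p ∣ w.2.2 → z < p) →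
  ∑ w ∈ G, ∑ m ∈ Ioc M (2 * M), ∑ n ∈ Ioc N (2 * N),
    (if (w.1 : ℤ) ∣ ((m * n : ℕ) : ℤ) - a (w.1, w.2.1) then 1 else 0) * (1 / (w.2.1.totient : ℝ)) *
      ((1 / (w.2.2.totient : ℝ) - 1 / (w.2.2 : ℝ)) + (if (m * n).Coprime w.2.2 then 0 else 1 / (w.2.2 : ℝ))) ≤
    15 * T ^ 8 * ((M : ℝ) * N / z)

/-- Module Bdr (theorem tBdr; all blocks). Uses: ML.BboStmt, ML.BbtStmt, MI.BgrStmt. MODEL: Lib/ML/Bdr.lean.
Proof. As there with r q = t q * u q given by Dv (Z = N x^(-ε); t q ∣ q, u q ∣ q/t q, so r q ∣ q; Z ≤ x^(1/2-ε) < q and the size conclusions of Bdr_q follow as there), and F1 = G. A r s = a (r s), b r = a q for some q ∈ G with r q = r. ML.Pr: for q, q' ∈ G with r q = r q' the second hypothesis gives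
r q ∣ a q - a q', and p ∣ a q - a q' for the primes p ≤ x^κ1 dividing both q/r q and q'/r q' (they divide q and q'). Simpler than the MODEL (no Bgi, no Bdr_dvd, no initial products). -/
def BdrStmt : Prop := ∀ δ τ κ κ1 ε κ0 : ℝ, Par δ τ κ ε → 2 * δ + κ + 6 * ε ≤ 2 * κ1 → 0 < κ0 → κ0 < κ →
  ∃ η C x0 : ℝ, 0 < η ∧
  ∀ (x : ℝ) (a : ℕ → ℤ) (M N : ℕ) (f g : ℕ → ℂ) (G : Finset ℕ) (t u : ℕ → ℕ), x0 ≤ x → N ≤ M →
  x ^ ((1 : ℝ) / 3 - ε) ≤ N →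
  x ^ (1 - ε) ≤ (M : ℝ) * N → (M : ℝ) * N ≤ x → (∀ m, ‖f m‖ ≤ 1) → (∀ n, ‖g n‖ ≤ 1) →
  (∀ q ∈ G, Md (1 / 2 + δ) τ κ κ0 x (t q) q ∧ Int.gcd (a q) q = 1 ∧ x ^ (1 / 2 - ε / 2) < (q : ℝ) ∧
    Dv κ x (N * x ^ (-ε)) t u q) →
  (∀ q ∈ G, ∀ q' ∈ G, t q * u q = t q' * u q' → t q = t q' ∧ Cn κ1 x a t u q q') →
  ∑ q ∈ G, ‖∑ m ∈ Ioc M (2 * M), ∑ n ∈ Ioc N (2 * N),
      f m * g n * Dl (a q) (t q * u q) (q / (t q * u q)) (m * n)‖ ≤ C * x ^ (1 - η)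

/-- Module Bds (theorem tBds). Uses: BdrStmt, MK.FspStmt, MI.BtaStmt. MODEL: Lib/ML/Bds.lean.
Proof. As there: MK.FspStmt with M := F, s := fun q => (t q : ℤ), t := fun q => t q * u q, K := T, B := |C1| x^(1-η1): on {q ∈ F : t q * u q = n} the values t q are divisors of n ≤ x (t q * u q ∣ q for q ∈ F), at most T of them; if G ⊆ F and (t q : ℤ) = a' (t q * u q) for q ∈ G then, on G, t q * u q = t q' * u q' implies
t q = t q' and hence u q = u q' (t q ≥ 1), so the last hypothesis gives Cn, and Bdr applies to G. -/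
def BdsStmt : Prop := ∀ δ τ κ κ1 ε κ0 : ℝ, Par δ τ κ ε → 2 * δ + κ + 6 * ε ≤ 2 * κ1 → 0 < κ0 → κ0 < κ →
  ∃ η C x0 : ℝ, 0 < η ∧
  ∀ (x : ℝ) (a : ℕ → ℤ) (M N : ℕ) (f g : ℕ → ℂ) (F : Finset ℕ) (t u : ℕ → ℕ), x0 ≤ x → N ≤ M →
  x ^ ((1 : ℝ) / 3 - ε) ≤ N →
  x ^ (1 - ε) ≤ (M : ℝ) * N → (M : ℝ) * N ≤ x → (∀ m, ‖f m‖ ≤ 1) → (∀ n, ‖g n‖ ≤ 1) →
  (∀ q ∈ F, Md (1 / 2 + δ) τ κ κ0 x (t q) q ∧ Int.gcd (a q) q = 1 ∧ x ^ (1 / 2 - ε / 2) < (q : ℝ) ∧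
    Dv κ x (N * x ^ (-ε)) t u q) →
  (∀ q ∈ F, ∀ q' ∈ F, t q = t q' → u q = u q' → Cn κ1 x a t u q q') →
  ∑ q ∈ F, ‖∑ m ∈ Ioc M (2 * M), ∑ n ∈ Ioc N (2 * N),
      f m * g n * Dl (a q) (t q * u q) (q / (t q * u q)) (m * n)‖ ≤ C * x ^ (1 - η)

/-- Module Bfi (theorem tBfi). STATEMENT BAllStmt (MN/Stm.lean). Uses: BdsStmt, MI.BidStmt, BrmStmt, ML.BlgStmt, MI.LrgStmt, MI.BtaStmt. MODEL: Lib/ML/Bfi.lean.
Proof. As there with u q = v Z q, s q = q/(t q u q), Z = N x^(-ε) for N ≤ M; in addition ε ≤ (1/3 - σ)/2, so x^σ ≤ x^(1/3-2ε) ≤ Z ≤ x^(1/2-ε) and Z < q for the large q (q > x^(1/2-ε/2)): Nst for this Z gives Dv and Cn for the large q. (1) small q: as there, no hypothesis on the classes. (2) second part of the decomposition: A2 (t, u) = a q for some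
large q ∈ F with t q = t, u q = u (t u ∣ a q - a q' for two such q, q' by Cn). (3) the remainders: BrmStmt with the same A2 (t ∣ t u ∣ a q - A2 (t, u)), no function A1 of t alone. -/
def BfiStmt : Prop := BAllStmt

end Pool.Agent.Lib.MN
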