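import Pool.Agent.Lib.ML.SpecB
import Pool.Agent.Lib.ML.SpecA

/-!
MP_00e23e_nt, directory Lib/MN (architect helper34; THEOREM MI, version 7): as version 6 (Lib/ML), but for every Z in
[x^σ, x^(1/2)], σ < 1/3, any divisor r = t d * v Z d of d with r ≤ Z < r x^κ (t d ∣ r) in place of the products of the
smallest primes, and the class modulo the rest d/r is arbitrary for its primes > x^κ1. Chapters T1, T2, D and the modules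
Bgi, Bdh, Bt1, Bt2, Blg, Bbo, Bbt of chapter B are those of Lib/ML.
-/

namespace Pool.Agent.Lib.MN

open Finset Pool.Agent.Lib.EH3 Pool.Agent.Lib.TB Pool.Agent.Results.MP_00e23e_nt Pool.Agent.Lib.MI

/-- the divisor r = t q * u q of q: u q divides q/t q, r ≤ Z < r x^κ -/
def Dv (κ x Z : ℝ) (t u : ℕ → ℕ) (q : ℕ) : Prop :=
  u q ∣ q / t q ∧ (t q : ℝ) * u q ≤ Z ∧ Z < (t q : ℝ) * u q * x ^ κ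

/-- the classes a q, a q' agree modulo t q * u q and modulo the common primes ≤ x^κ1 of q and q' -/
def Cn (κ1 x : ℝ) (a : ℕ → ℤ) (t u : ℕ → ℕ) (q q' : ℕ) : Prop :=
  ((t q * u q : ℕ) : ℤ) ∣ a q - a q' ∧ ∀ p : ℕ, p.Prime → p ∣ q → p ∣ q' → (p : ℝ) ≤ x ^ κ1 → (p : ℤ) ∣ a q - a q'

/-- the hypothesis on the classes a q, q ∈ F: for every Z in [x^σ, x^(1/2)] and every q > Z the divisor t q * v Z q; the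
classes of two moduli with the same t and v agree as in Cn -/
def Nst (κ κ1 σ x : ℝ) (a : ℕ → ℤ) (t : ℕ → ℕ) (v : ℝ → ℕ → ℕ) (F : Finset ℕ) : Prop :=
  ∀ Z : ℝ, x ^ σ ≤ Z → Z ≤ x ^ ((1 : ℝ) / 2) → (∀ q ∈ F, Z < q → Dv κ x Z t (v Z) q) ∧
    ∀ q ∈ F, ∀ q' ∈ F, Z < q → Z < q' → t q = t q' → v Z q = v Z q' → Cn κ1 x a t (v Z) q q'

/-- Chapter B. The bilinear theorem for the moduli Md, variables ≥ x^(1/3-ε), product ≥ x^(1-ε). -/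
def BlStmt (α τ κ κ1 σ ε : ℝ) : Prop := ∀ κ0 : ℝ, 0 < κ0 → κ0 < κ → ∃ η C x0 : ℝ, 0 < η ∧ ∀ (x : ℝ) (a : ℕ → ℤ)
    (M N : ℕ) (f g : ℕ → ℂ) (F : Finset ℕ) (t : ℕ → ℕ) (v : ℝ → ℕ → ℕ), x0 ≤ x → x ^ ((1 : ℝ) / 3 - ε) ≤ N →
  x ^ ((1 : ℝ) / 3 - ε) ≤ M → x ^ (1 - ε) ≤ (M : ℝ) * N → (M : ℝ) * N ≤ x → (∀ m, ‖f m‖ ≤ 1) → (∀ n, ‖g n‖ ≤ 1) →
  (∀ q ∈ F, Md α τ κ κ0 x (t q) q ∧ Int.gcd (a q) q = 1) → Nst κ κ1 σ x a t v F →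
  ∑ q ∈ F, ‖∑ m ∈ Ioc M (2 * M), ∑ n ∈ Ioc N (2 * N), f m * g n * Ek (a q) (t q) q (m * n)‖ ≤ C * x ^ (1 - η)

/-- Chapter A. The theorem for the von Mangoldt function, one class function and one Y ≤ x. -/
def CoreStmt (α τ κ κ1 σ : ℝ) : Prop := ∀ κ0 : ℝ, 0 < κ0 → κ0 < κ → ∃ η C x0 : ℝ, 0 < η ∧ ∀ (x : ℝ) (a : ℕ → ℤ)
    (Y : ℕ) (F : Finset ℕ) (t : ℕ → ℕ) (v : ℝ → ℕ → ℕ), x0 ≤ x → (Y : ℝ) ≤ x →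
  (∀ q ∈ F, Md α τ κ κ0 x (t q) q ∧ Int.gcd (a q) q = 1) → Nst κ κ1 σ x a t v F →
  ∑ q ∈ F, ‖∑ n ∈ Icc 1 Y, (ArithmeticFunction.vonMangoldt n : ℂ) * Ek (a q) (t q) q n‖ ≤ C * x ^ (1 - η)

/-- Chapter F. THEOREM MI (version 7) for the level x^α, t ≤ x^τ, primes of d/t in (x^κ0, x^κ]: x^η class functions
(i d is the number of the one used for d). -/
def MIAt (α τ κ κ1 σ : ℝ) : Prop := ∀ κ0 : ℝ, 0 < κ0 → κ0 < κ → ∃ η : ℝ, 0 < η ∧ ∀ U : ℝ, 0 < U → ∃ C : ℝ,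
  ∀ (x : ℝ) (s : ℕ → ℤ) (t i : ℕ → ℕ) (v : ℝ → ℕ → ℕ) (y : ℕ → ℝ) (M : Finset ℕ), 3 ≤ x →
  ((M.image i).card : ℝ) ≤ x ^ η → (∀ d, 2 ≤ y d ∧ y d ≤ x) →
  (∀ d ∈ M, Md α τ κ κ0 x (t d) d ∧ Int.gcd (s d) d = 1) →
  (∀ Z : ℝ, x ^ σ ≤ Z → Z ≤ x ^ ((1 : ℝ) / 2) → (∀ d ∈ M, Z < d → Dv κ x Z t (v Z) d) ∧
    ∀ d ∈ M, ∀ d' ∈ M, Z < d → Z < d' → i d = i d' → t d = t d' → v Z d = v Z d' → Cn κ1 x s t (v Z) d d') →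
  ∑ d ∈ M, |(resCount (y d) d (s d) : ℝ) - (resCount (y d) (t d) (s d) : ℝ) / ((d / t d).totient : ℝ)| ≤
      C * x ^ (1 - η) ∧
    ∑ d ∈ M, |resErr (y d) d (s d)| ≤ C * (x / (Real.log x) ^ U)

/-- THEOREM MI, version 7 -/
def MIStmt : Prop := ∀ δ τ κ κ1 σ : ℝ, 0 ≤ δ → 0 ≤ τ → 0 < κ → 86 * δ + 60 * κ < 1 → 8 * δ + 6 * κ + τ < 1 / 3 →
  2 * δ + κ < 2 * κ1 → σ < 1 / 3 → MIAt (1 / 2 + δ) τ κ κ1 σ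

/-- Chapter B: to prove -/
def BAllStmt : Prop := ∀ δ τ κ κ1 σ : ℝ, 0 ≤ δ → 0 ≤ τ → 0 < κ → 86 * δ + 60 * κ < 1 → 8 * δ + 6 * κ + τ < 1 / 3 →
  2 * δ + κ < 2 * κ1 → σ < 1 / 3 → ∃ ε : ℝ, 0 < ε ∧ ε < 1 / 100 ∧ BlStmt (1 / 2 + δ) τ κ κ1 σ ε

/-- Chapter A: to prove -/
def AAllStmt : Prop := ∀ α τ κ κ1 σ ε : ℝ, 0 < ε → ε < 1 / 100 → α ≤ 3 / 5 → 0 ≤ τ → τ ≤ 1 / 3 → 0 < κ → κ ≤ 1 / 10 →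
  BlStmt α τ κ κ1 σ ε → CoreStmt α τ κ κ1 σ

/-- Chapter F: to prove. -/
def FAllStmt : Prop := ∀ α τ κ κ1 σ : ℝ, α ≤ 3 / 5 → 0 ≤ τ → τ ≤ 1 / 3 → 0 < κ → κ ≤ 1 / 10 → CoreStmt α τ κ κ1 σ →
  MIAt α τ κ κ1 σ

end Pool.Agent.Lib.MN
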